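import Mathlib

set_option autoImplicit false

namespace Pool.Agent.Results.MP_653b50_an.NoRestrictedLimit

open InnerProductSpace Filter Topology Complex

/-- `U = (ℝ²₊)ⁿ`, the product of `n` upper half planes, as a subset of `ℂⁿ`. -/
def U (n : ℕ) : Set (Fin n → ℂ) := {z | ∀ j, 0 < (z j).im}

/-- `u` is multiply harmonic on `U`: for every `z ∈ U` and every `j`, the function of the `j`-th
variable obtained by fixing the other variables is harmonic on the upper half plane. -/
def MultiplyHarmonic (n : ℕ) (u : (Fin n → ℂ) → ℝ) : Prop :=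
  ∀ z ∈ U n, ∀ j : Fin n,
    HarmonicOnNhd (fun w : ℂ => u (Function.update z j w)) {w : ℂ | 0 < w.im}

/-- The product cone `Γ(x̄)`. -/
def Cone (n : ℕ) (x : Fin n → ℝ) : Set (Fin n → ℂ) :=
  {z | z ∈ U n ∧ ∀ j, |(z j).re - x j| < (z j).im}

/-- The region `R` of comparable heights. -/
def R (n : ℕ) (c₁ c₂ : ℝ) : Set (Fin n → ℂ) :=
  {z | z ∈ U n ∧ ∀ j k : Fin n, j < k → c₁ ≤ (z j).im / (z k).im ∧ (z j).im / (z k).im ≤ c₂}

/-- `u` has the restricted limit `ℓ` at the boundary point `x̄ ∈ ℝⁿ`. -/
def HasRestrictedLimit (n : ℕ) (c₁ c₂ : ℝ) (u : (Fin n → ℂ) → ℝ) (x : Fin n → ℝ) (ℓ : ℝ) : Prop :=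
  Tendsto u (𝓝[Cone n x ∩ R n c₁ c₂] (fun j => (x j : ℂ))) (𝓝 ℓ)

/-- frequencies -/
noncomputable def N (k : ℕ) : ℝ := 2 ^ (k ^ 2)

lemma N_pos (k : ℕ) : 0 < N k := by unfold N; positivity

lemma N_ge (k : ℕ) : (2:ℝ) ^ k ≤ N k := by
  unfold N
  exact pow_le_pow_right₀ (by norm_num) (Nat.le_self_pow (by norm_num) k)

lemma two_mul_N_le (k : ℕ) : 2 * N k ≤ N (k+1) := by
  unfold N
  rw [← pow_succ']
  refine pow_le_pow_right₀ (by norm_num) ?_
  have : (k + 1) ^ 2 = k ^ 2 + 2 * k + 1 := by ring
  omega

/-- lacunary series -/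
noncomputable def h (z : ℂ) : ℂ := ∑' k, (N k : ℂ) * Complex.exp (I * (N k) * z)

lemma norm_term (k : ℕ) (z : ℂ) :
    ‖(N k : ℂ) * Complex.exp (I * (N k) * z)‖ = N k * Real.exp (-(N k * z.im)) := by
  rw [norm_mul, Complex.norm_exp, Complex.norm_real, Real.norm_eq_abs, abs_of_pos (N_pos k)]
  congr 2
  simp [mul_assoc]

lemma mul_exp_le (r : ℝ) (hr : 0 < r) : r * Real.exp (-r) ≤ 2 / r := by
  rw [Real.exp_neg, ← div_eq_mul_inv, div_le_div_iff₀ (Real.exp_pos r) hr]
  have := Real.quadratic_le_exp_of_nonneg hr.le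
  nlinarith

lemma term_bound (k : ℕ) (a : ℝ) (ha : 0 < a) :
    N k * Real.exp (-(N k * a)) ≤ 2 / a ^ 2 * (1/2) ^ k := by
  have h1 := mul_exp_le (N k * a) (mul_pos (N_pos k) ha)
  have h2 : N k * Real.exp (-(N k * a)) ≤ 2 / a ^ 2 * (1 / N k) := by
    have : N k * Real.exp (-(N k * a)) = (N k * a * Real.exp (-(N k * a))) / a := by
      field_simp
    rw [this, div_le_iff₀ ha]
    refine h1.trans (le_of_eq ?_)
    have := N_pos k
    field_simp
  refine h2.trans ?_
  refine mul_le_mul_of_nonneg_left ?_ (by positivity)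
  rw [one_div_pow]
  exact one_div_le_one_div_of_le (by positivity) (N_ge k)

lemma summable_bd (a : ℝ) : Summable fun k : ℕ => 2 / a ^ 2 * (1/2 : ℝ) ^ k :=
  (summable_geometric_of_lt_one (by norm_num) (by norm_num)).mul_left _

lemma summable_term (z : ℂ) (hz : 0 < z.im) :
    Summable fun k => (N k : ℂ) * Complex.exp (I * (N k) * z) := by
  refine Summable.of_norm_bounded (summable_bd z.im) fun k => ?_
  rw [norm_term]
  exact term_bound k _ hz

lemma differentiableOn_h (a : ℝ) (ha : 0 < a) : DifferentiableOn ℂ h {w : ℂ | a < w.im} := by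
  refine differentiableOn_tsum_of_summable_norm (u := fun k => 2 / a ^ 2 * (1/2 : ℝ) ^ k)
    (summable_bd a) ?_ (isOpen_lt continuous_const Complex.continuous_im) ?_
  · intro k
    fun_prop
  · intro k w hw
    rw [norm_term]
    refine le_trans ?_ (term_bound k a ha)
    refine mul_le_mul_of_nonneg_left ?_ (N_pos k).le
    apply Real.exp_le_exp.2
    have := mul_lt_mul_of_pos_left (show a < w.im from hw) (N_pos k)
    linarith

lemma analyticAt_h (w : ℂ) (hw : 0 < w.im) : AnalyticAt ℂ h w := by
  have hopen : IsOpen {v : ℂ | w.im / 2 < v.im} := isOpen_lt continuous_const Complex.continuous_im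
  exact (differentiableOn_h (w.im/2) (by linarith)).analyticAt
    (hopen.mem_nhds (by show w.im / 2 < w.im; linarith))

/-- Boundedness of `y h(x+iy)`. -/
lemma partial_sum_bound (y : ℝ) (hy : 0 < y) (K : ℕ) :
    ∑ k ∈ Finset.range (K+1), y * (N k * Real.exp (-(N k * y))) ≤ 3 - 2 * Real.exp (-(N K * y)) := by
  induction K with
  | zero =>
    have h0 : N 0 = 1 := by simp [N]
    simp only [zero_add, Finset.range_one, Finset.sum_singleton, h0, one_mul]
    have h1 : y * Real.exp (-y) ≤ 1 := by
      rw [Real.exp_neg, ← div_eq_mul_inv, div_le_one (Real.exp_pos y)]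
      have := Real.add_one_le_exp y
      linarith
    have h2 : Real.exp (-y) ≤ 1 := Real.exp_le_one_iff.2 (by linarith)
    linarith
  | succ K ih =>
    rw [Finset.sum_range_succ]
    have hN := two_mul_N_le K
    set a := N K * y with ha
    set b := N (K+1) * y with hb
    have hab : 2 * a ≤ b := by nlinarith
    have hapos : 0 < a := mul_pos (N_pos K) hy
    have h1 : Real.exp (-b) * (1 + b / 2) ≤ Real.exp (-a) := by
      have h2 : 1 + b/2 ≤ Real.exp (b - a) := by
        have := Real.add_one_le_exp (b - a)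
        linarith
      calc Real.exp (-b) * (1 + b/2) ≤ Real.exp (-b) * Real.exp (b - a) :=
            mul_le_mul_of_nonneg_left h2 (Real.exp_pos _).le
        _ = Real.exp (-a) := by rw [← Real.exp_add]; congr 1; ring
    have h3 : y * (N (K+1) * Real.exp (-b)) = b * Real.exp (-b) := by
      rw [hb]; ring
    rw [h3]
    nlinarith

lemma norm_h_le (z : ℂ) (hz : 0 < z.im) : z.im * ‖h z‖ ≤ 3 := by
  have h1 : ‖h z‖ ≤ ∑' k, N k * Real.exp (-(N k * z.im)) := by
    have hs : Summable fun k => ‖(N k : ℂ) * Complex.exp (I * (N k) * z)‖ := (summable_term z hz).norm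
    refine (norm_tsum_le_tsum_norm hs).trans (le_of_eq ?_)
    exact tsum_congr fun k => norm_term k z
  have h2 : z.im * ∑' k, N k * Real.exp (-(N k * z.im)) ≤ 3 := by
    rw [← tsum_mul_left]
    refine Real.tsum_le_of_sum_range_le (fun k => ?_) fun K => ?_
    · exact mul_nonneg hz.le (mul_nonneg (N_pos k).le (Real.exp_pos _).le)
    · rcases K with _ | K
      · simp
      · refine (partial_sum_bound z.im hz K).trans ?_
        have := Real.exp_pos (-(N K * z.im))
        linarith
  exact (mul_le_mul_of_nonneg_left h1 hz.le).trans h2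

/-- The main term at height `1/N K`. -/
lemma main_term (K : ℕ) (x : ℝ) :
    |(1 / N K) * (h ((x : ℂ) + (1 / N K : ℝ) * I)).re - Real.exp (-1) * Real.cos (N K * x)|
      ≤ 4 * (1/2) ^ K := by
  set z : ℂ := (x : ℂ) + (1 / N K : ℝ) * I with hz
  have hNK := N_pos K
  have him : z.im = 1 / N K := by simp [hz]
  have hzpos : 0 < z.im := by rw [him]; positivity
  have hsum := summable_term z hzpos
  have hsplit : h z = (N K : ℂ) * Complex.exp (I * (N K) * z)
      + ∑' k, (if k = K then 0 else (N k : ℂ) * Complex.exp (I * (N k) * z)) := by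
    rw [h]
    exact hsum.tsum_eq_add_tsum_ite K
  have hbound : ‖((1 / N K : ℝ) : ℂ) * ∑' k, (if k = K then 0 else (N k : ℂ) * Complex.exp (I * (N k) * z))‖
      ≤ 4 * (1/2) ^ K := by
    rw [← tsum_mul_left]
    have hg : HasSum (fun k : ℕ => 2 * (1/2 : ℝ) ^ K * (1/2) ^ k) (4 * (1/2) ^ K) := by
      have := (hasSum_geometric_of_lt_one (show (0:ℝ) ≤ 1/2 by norm_num) (by norm_num)).mul_left
        (2 * (1/2 : ℝ) ^ K)
      have h2 : (1 - 1/2 : ℝ)⁻¹ = 2 := by norm_num
      rw [h2] at this
      have e : 4 * (1/2 : ℝ) ^ K = 2 * (1/2) ^ K * 2 := by ring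
      rw [e]
      exact this
    refine tsum_of_norm_bounded hg fun k => ?_
    split_ifs with hk
    · simp
    · rw [norm_mul, norm_term, him, Complex.norm_real, Real.norm_eq_abs, abs_of_pos (by positivity)]
      set r := N k / N K with hr
      have hrpos : 0 < r := div_pos (N_pos k) hNK
      have hrew : 1 / N K * (N k * Real.exp (-(N k * (1 / N K)))) = r * Real.exp (-r) := by
        rw [hr]
        have : N k * (1 / N K) = N k / N K := by ring
        rw [this]; ring
      rw [hrew]
      have hpow : ∀ a b : ℕ, a < b → N a / N b ≤ (1/2 : ℝ) ^ a * (1/2) ^ b := by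
        intro a b hab
        unfold N
        rw [one_div, inv_pow, inv_pow, div_le_iff₀ (by positivity), ← mul_inv, ← div_eq_inv_mul,
          le_div_iff₀ (by positivity), ← pow_add, ← pow_add]
        exact pow_le_pow_right₀ (by norm_num) (by nlinarith)
      rcases lt_or_gt_of_ne hk with hlt | hgt
      · have h1 : r * Real.exp (-r) ≤ r := by
          have : Real.exp (-r) ≤ 1 := Real.exp_le_one_iff.2 (by linarith)
          nlinarith
        have h2 := hpow k K hlt
        have h3 : (0:ℝ) ≤ (1/2) ^ k * (1/2) ^ K := by positivity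
        nlinarith
      · have h1 := mul_exp_le r hrpos
        have h2 := hpow K k hgt
        have h3 : 2 / r = 2 * (N K / N k) := by
          rw [hr]
          have := N_pos k
          field_simp
        rw [h3] at h1
        nlinarith
  have hmain : (1 / N K) * ((N K : ℂ) * Complex.exp (I * (N K) * z)).re
      = Real.exp (-1) * Real.cos (N K * x) := by
    have h1 : I * (N K : ℂ) * z = ((-1 : ℝ) : ℂ) + ((N K * x : ℝ) : ℂ) * I := by
      rw [hz]
      push_cast
      have : (N K : ℂ) ≠ 0 := by exact_mod_cast hNK.ne'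
      field_simp
      ring_nf
      rw [Complex.I_sq]
      ring
    rw [h1, Complex.exp_add, Complex.re_ofReal_mul, ← Complex.ofReal_exp, Complex.re_ofReal_mul,
      Complex.exp_ofReal_mul_I_re]
    field_simp
  have hre : (1 / N K) * (h z).re - Real.exp (-1) * Real.cos (N K * x)
      = (((1 / N K : ℝ) : ℂ) * ∑' k, (if k = K then 0 else (N k : ℂ) * Complex.exp (I * (N k) * z))).re := by
    rw [hsplit, Complex.add_re, mul_add, hmain, Complex.re_ofReal_mul]
    ring
  rw [hre]
  exact (Complex.abs_re_le_norm _).trans hbound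

/-- the cosines cannot converge together -/
lemma cos_contra (α : ℕ → ℝ) (L : ℝ)
    (h0 : Tendsto (fun K => Real.cos (α K)) atTop (𝓝 L))
    (h1 : Tendsto (fun K => Real.cos (α K + 1/2)) atTop (𝓝 L))
    (h2 : Tendsto (fun K => Real.cos (α K + (-(1/2)))) atTop (𝓝 L)) : False := by
  have hs : 0 < Real.sin (1/2) := Real.sin_pos_of_pos_of_lt_pi (by norm_num) (by
    have := Real.pi_gt_three
    linarith)
  have hc : Real.cos (1/2) < 1 := by
    by_contra hge
    push Not at hge
    have := Real.sin_sq_add_cos_sq (1/2)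
    nlinarith
  have h3 : Tendsto (fun K => 2 * Real.cos (α K) * Real.cos (1/2)) atTop (𝓝 (L + L)) := by
    refine (h1.add h2).congr fun K => ?_
    rw [Real.cos_add, Real.cos_add, Real.cos_neg, Real.sin_neg]
    ring
  have h4 : Tendsto (fun K => 2 * Real.cos (α K) * Real.cos (1/2)) atTop
      (𝓝 (2 * L * Real.cos (1/2))) := (h0.const_mul 2).mul_const _
  have h5 := tendsto_nhds_unique h3 h4
  have hL : L = 0 := by
    have : 2 * L * (1 - Real.cos (1/2)) = 0 := by linarith
    rcases mul_eq_zero.1 this with h | h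
    · linarith
    · linarith
  subst hL
  have h6 : Tendsto (fun K => Real.sin (α K)) atTop (𝓝 0) := by
    have h7 : Tendsto (fun K => (Real.cos (α K) * Real.cos (1/2) - Real.cos (α K + 1/2)) / Real.sin (1/2))
        atTop (𝓝 ((0 * Real.cos (1/2) - 0) / Real.sin (1/2))) :=
      ((h0.mul_const _).sub h1).div_const _
    have h8 : (0 * Real.cos (1/2) - 0) / Real.sin (1/2) = 0 := by simp
    rw [h8] at h7
    refine h7.congr fun K => ?_
    rw [Real.cos_add]
    field_simp
    ring
  have h9 : Tendsto (fun K => Real.sin (α K) ^ 2 + Real.cos (α K) ^ 2) atTop (𝓝 (0 ^ 2 + 0 ^ 2)) :=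
    (h6.pow 2).add (h0.pow 2)
  have h10 : Tendsto (fun _ : ℕ => (1 : ℝ)) atTop (𝓝 (0 ^ 2 + 0 ^ 2)) := by
    refine h9.congr fun K => Real.sin_sq_add_cos_sq _
  have := tendsto_nhds_unique h10 tendsto_const_nhds
  norm_num at this

/-- For every `n ≥ 2` and all `0 < c₁ ≤ c₂` with `R` nonempty there is a multiply harmonic function
on `U`, bounded on `R`, that has no restricted limit at any boundary point. -/
theorem result : ∀ n : ℕ, 2 ≤ n → ∀ c₁ c₂ : ℝ, 0 < c₁ → c₁ ≤ c₂ → (R n c₁ c₂).Nonempty →
    ∃ u : (Fin n → ℂ) → ℝ, MultiplyHarmonic n u ∧ (∃ M : ℝ, ∀ z ∈ R n c₁ c₂, |u z| ≤ M) ∧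
      ∀ x : Fin n → ℝ, ¬ ∃ ℓ : ℝ, HasRestrictedLimit n c₁ c₂ u x ℓ := by
  intro n hn c₁ c₂ hc₁ hc₁₂ hR
  obtain ⟨z₀, hz₀U, hz₀R⟩ := hR
  set i0 : Fin n := ⟨0, by omega⟩ with hi0
  set i1 : Fin n := ⟨1, by omega⟩ with hi1
  have h01 : i0 < i1 := by simp [hi0, hi1]
  have hne : i1 ≠ i0 := h01.ne'
  refine ⟨fun z => (z i1).im * (h (z i0)).re, ?_, ?_, ?_⟩
  · intro z hz j w hw
    by_cases hj0 : j = i0
    · subst hj0
      have h1 : (fun w : ℂ => ((Function.update z i0 w) i1).im * (h ((Function.update z i0 w) i0)).re)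
          = (z i1).im • fun w : ℂ => (h w).re := by
        funext v
        rw [Function.update_of_ne hne, Function.update_self]
        rfl
      rw [h1]
      exact (analyticAt_h w hw).harmonicAt_re.const_smul
    · by_cases hj1 : j = i1
      · subst hj1
        have h1 : (fun w : ℂ => ((Function.update z i1 w) i1).im * (h ((Function.update z i1 w) i0)).re)
            = (h (z i0)).re • fun w : ℂ => (id w).im := by
          funext v
          rw [Function.update_of_ne hne.symm, Function.update_self, mul_comm]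
          rfl
        rw [h1]
        exact (analyticAt_id).harmonicAt_im.const_smul
      · have h1 : (fun w : ℂ => ((Function.update z j w) i1).im * (h ((Function.update z j w) i0)).re)
            = fun _ => (z i1).im * (h (z i0)).re := by
          funext v
          rw [Function.update_of_ne (Ne.symm hj1), Function.update_of_ne (Ne.symm hj0)]
        rw [h1]
        exact harmonicAt_const _
  · refine ⟨3 / c₁, fun z hz => ?_⟩
    obtain ⟨hzU, hzR⟩ := hz
    have hy0 := hzU i0
    have hy1 := hzU i1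
    have hratio := (hzR i0 i1 h01).1
    rw [le_div_iff₀ hy1] at hratio
    have hb := norm_h_le (z i0) hy0
    have hre := Complex.abs_re_le_norm (h (z i0))
    rw [abs_mul, abs_of_pos hy1, le_div_iff₀ hc₁]
    calc (z i1).im * |(h (z i0)).re| * c₁ = (c₁ * (z i1).im) * |(h (z i0)).re| := by ring
      _ ≤ (z i0).im * ‖h (z i0)‖ := mul_le_mul hratio hre (abs_nonneg _) hy0.le
      _ ≤ 3 := hb
  · rintro x ⟨ℓ, hℓ⟩
    set η : Fin n → ℝ := fun j => (z₀ j).im with hη
    have hηpos : ∀ j, 0 < η j := hz₀U
    set ρ : ℝ := η i1 / η i0 with hρ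
    have hρpos : 0 < ρ := div_pos (hηpos _) (hηpos _)
    -- the approach sequences
    set p : ℝ → ℕ → Fin n → ℂ := fun θ K j =>
      ((x j + (if j = i0 then θ / N K else 0) : ℝ) : ℂ) + ((η j / η i0 * (1 / N K) : ℝ) : ℂ) * I with hp
    have hre : ∀ θ K j, (p θ K j).re = x j + (if j = i0 then θ / N K else 0) := by
      intro θ K j
      simp [hp]
    have him : ∀ θ K j, (p θ K j).im = η j / η i0 * (1 / N K) := by
      intro θ K j
      simp only [hp, Complex.add_im, Complex.ofReal_im, Complex.im_ofReal_mul, Complex.I_im]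
      ring
    have hNinv : Tendsto (fun K : ℕ => 1 / N K) atTop (𝓝 0) := by
      refine squeeze_zero (fun K => (one_div_pos.2 (N_pos K)).le) (g := fun K : ℕ => (1/2 : ℝ)^K) ?_ ?_
      · intro K
        rw [one_div_pow]
        exact one_div_le_one_div_of_le (by positivity) (N_ge K)
      · exact tendsto_pow_atTop_nhds_zero_of_lt_one (by norm_num) (by norm_num)
    have hmem : ∀ θ : ℝ, |θ| < 1 → ∀ K, p θ K ∈ Cone n x ∩ R n c₁ c₂ := by
      intro θ hθ K
      have hU : p θ K ∈ U n := by
        intro j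
        rw [him]
        exact mul_pos (div_pos (hηpos _) (hηpos _)) (one_div_pos.2 (N_pos K))
      refine ⟨⟨hU, fun j => ?_⟩, hU, fun j k hjk => ?_⟩
      · have hj := hU j
        rw [hre]
        by_cases hj0 : j = i0
        · subst hj0
          rw [if_pos rfl, him, add_sub_cancel_left, div_self (hηpos _).ne', one_mul, abs_div,
            abs_of_pos (N_pos K)]
          exact div_lt_div_of_pos_right hθ (N_pos K)
        · rw [if_neg hj0]
          simpa using hj
      · have h1 : (p θ K j).im / (p θ K k).im = (z₀ j).im / (z₀ k).im := by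
          rw [him, him]
          have := (N_pos K).ne'
          have := (hηpos i0).ne'
          have := (hηpos k).ne'
          simp only [hη] at *
          field_simp
        rw [h1]
        exact hz₀R j k hjk
    have htend : ∀ θ : ℝ, |θ| < 1 → Tendsto (p θ) atTop (𝓝[Cone n x ∩ R n c₁ c₂] (fun j => (x j : ℂ))) := by
      intro θ hθ
      refine tendsto_nhdsWithin_iff.2 ⟨?_, Eventually.of_forall (hmem θ hθ)⟩
      rw [tendsto_pi_nhds]
      intro j
      have h1 : Tendsto (fun K : ℕ => ((x j + (if j = i0 then θ / N K else 0) : ℝ) : ℂ)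
          + ((η j / η i0 * (1 / N K) : ℝ) : ℂ) * I) atTop
          (𝓝 (((x j + (if j = i0 then θ * 0 else 0) : ℝ) : ℂ) + ((η j / η i0 * 0 : ℝ) : ℂ) * I)) := by
        refine Tendsto.add ?_ (Tendsto.mul_const _ ?_)
        · refine (Complex.continuous_ofReal.tendsto _).comp (Tendsto.const_add _ ?_)
          split_ifs
          · have : (fun K => θ / N K) = fun K => θ * (1 / N K) := by
              funext K; ring
            rw [this]
            exact hNinv.const_mul θ
          · exact tendsto_const_nhds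
        · exact (Complex.continuous_ofReal.tendsto _).comp (hNinv.const_mul _)
      have h2 : (((x j + (if j = i0 then θ * 0 else 0) : ℝ) : ℂ) + ((η j / η i0 * 0 : ℝ) : ℂ) * I)
          = (x j : ℂ) := by
        split_ifs <;> simp
      rw [h2] at h1
      exact h1
    have hlim : ∀ θ : ℝ, |θ| < 1 → Tendsto (fun K => Real.cos (N K * x i0 + θ)) atTop
        (𝓝 (ℓ / ρ / Real.exp (-1))) := by
      intro θ hθ
      have h1 := hℓ.comp (htend θ hθ)
      -- value of `u` along the sequence
      have h2 : ∀ K, ρ * ((1 / N K) * (h (((x i0 + θ / N K : ℝ) : ℂ) + (1 / N K : ℝ) * I)).re)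
          = ((fun z : Fin n → ℂ => (z i1).im * (h (z i0)).re) ∘ p θ) K := by
        intro K
        have h3 : p θ K i0 = ((x i0 + θ / N K : ℝ) : ℂ) + (1 / N K : ℝ) * I := by
          simp only [hp, if_true, div_self (hηpos i0).ne', one_mul]
        simp only [Function.comp]
        rw [h3, him]
        ring
      have h4 : Tendsto (fun K => ρ * ((1 / N K) * (h (((x i0 + θ / N K : ℝ) : ℂ) + (1 / N K : ℝ) * I)).re))
          atTop (𝓝 ℓ) := h1.congr fun K => (h2 K).symm
      have h5 : Tendsto (fun K => (1 / N K) * (h (((x i0 + θ / N K : ℝ) : ℂ) + (1 / N K : ℝ) * I)).re)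
          atTop (𝓝 (ℓ / ρ)) := by
        refine (h4.div_const ρ).congr fun K => ?_
        field_simp
      have h6 : Tendsto (fun K => (1 / N K) * (h (((x i0 + θ / N K : ℝ) : ℂ) + (1 / N K : ℝ) * I)).re
          - Real.exp (-1) * Real.cos (N K * (x i0 + θ / N K))) atTop (𝓝 0) := by
        refine squeeze_zero_norm (a := fun K : ℕ => 4 * (1/2 : ℝ) ^ K) (fun K => ?_) ?_
        · rw [Real.norm_eq_abs]
          exact main_term K _
        · have := (tendsto_pow_atTop_nhds_zero_of_lt_one (show (0:ℝ) ≤ 1/2 by norm_num)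
            (by norm_num)).const_mul 4
          simpa using this
      have h7 := (h5.sub h6).div_const (Real.exp (-1))
      rw [sub_zero] at h7
      refine h7.congr fun K => ?_
      have h8 : N K * (x i0 + θ / N K) = N K * x i0 + θ := by
        have := (N_pos K).ne'
        field_simp
      rw [h8]
      have := (Real.exp_pos (-1)).ne'
      field_simp
      ring
    have e0 := hlim 0 (by norm_num)
    have e1 := hlim (1/2) (by rw [abs_of_pos] <;> norm_num)
    have e2 := hlim (-(1/2)) (by rw [abs_neg, abs_of_pos] <;> norm_num)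
    simp only [add_zero] at e0
    exact cos_contra _ _ e0 e1 e2

end Pool.Agent.Results.MP_653b50_an.NoRestrictedLimit
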